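import Mathlib
import Pool.Agent.Lib_MP_d5cc4e_co.Final

set_option autoImplicit false

open scoped Pointwise

namespace Pool.Agent.Results.MP_d5cc4e_co.GroupsContainingQ

universe u v

/-- The colouring `c` is constant on `X + X = {x + y : x, y ∈ X}` (the doubles `x + x` included). -/
def MonoSumset {A : Type u} [Add A] {κ : Type v} (c : A → κ) (X : Set A) : Prop :=
  ∃ i : κ, ∀ s ∈ X + X, c s = i

/-- `rd A`: the least cardinal `r` such that some colouring `c : A → r` has no monochromatic set of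
the form `X + X` with `X ⊆ A` infinite. -/
noncomputable def rd (A : Type u) [Add A] : Cardinal.{u} :=
  sInf {r : Cardinal.{u} | ∃ c : A → r.out, ∀ X : Set A, X.Infinite → ¬ MonoSumset c X}

lemma copy {A : Type u} [AddGroup A] (φ : ℚ →+ A) (hφ : Function.Injective φ) {κ : Type v}
    (c : A → κ) (hc : (Set.range c).encard ≤ 2) :
    ∃ X : Set A, X ⊆ Set.range φ ∧ X.Infinite ∧ MonoSumset c X := by
  classical
  set i₀ : κ := c 0 with hi₀
  have hng := Pool.Agent.SumQ.not_good (fun q : ℚ => decide (c (φ q) = i₀))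
  unfold Pool.Agent.SumQ.Good at hng
  push Not at hng
  obtain ⟨X, hX, b, hb⟩ := hng
  refine ⟨φ '' X, Set.image_subset_range _ _, hX.image hφ.injOn, ?_⟩
  obtain ⟨x₀, hx₀⟩ := hX.nonempty
  refine ⟨c (φ (x₀ + x₀)), ?_⟩
  rintro _ ⟨_, ⟨x, hx, rfl⟩, _, ⟨y, hy, rfl⟩, rfl⟩
  beta_reduce
  rw [← map_add]
  have h1 := hb x hx y hy
  have h0 := hb x₀ hx₀ x₀ hx₀
  cases b
  · have e1 : c (φ (x + y)) ≠ i₀ := of_decide_eq_false h1
    have e0 : c (φ (x₀ + x₀)) ≠ i₀ := of_decide_eq_false h0
    by_contra hne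
    have hsub : ({i₀, c (φ (x + y)), c (φ (x₀ + x₀))} : Set κ) ⊆ Set.range c := by
      intro k hk
      simp only [Set.mem_insert_iff, Set.mem_singleton_iff] at hk
      rcases hk with rfl | rfl | rfl
      · exact ⟨0, rfl⟩
      · exact ⟨_, rfl⟩
      · exact ⟨_, rfl⟩
    have h3 : ({i₀, c (φ (x + y)), c (φ (x₀ + x₀))} : Set κ).encard = 3 := by
      rw [Set.encard_insert_of_notMem, Set.encard_pair hne]
      · norm_num
      · simp only [Set.mem_insert_iff, Set.mem_singleton_iff, not_or]
        exact ⟨e1.symm, e0.symm⟩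
    have h4 := (Set.encard_le_encard hsub).trans hc
    rw [h3] at h4
    norm_num at h4
  · have e1 : c (φ (x + y)) = i₀ := of_decide_eq_true h1
    have e0 : c (φ (x₀ + x₀)) = i₀ := of_decide_eq_true h0
    rw [e1, e0]

lemma three_le_rd (A : Type u) [AddGroup A] (φ : ℚ →+ A) (hφ : Function.Injective φ) :
    3 ≤ rd A := by
  unfold rd
  refine le_csInf ?_ ?_
  · -- an injective colouring has no monochromatic `X + X` with `X` infinite
    refine ⟨Cardinal.mk A, (Cardinal.outMkEquiv (α := A)).symm, ?_⟩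
    rintro X hX ⟨i, hi⟩
    obtain ⟨x, hx, y, hy, hxy⟩ := hX.nontrivial
    have h := (hi (x + x) (Set.add_mem_add hx hx)).trans (hi (y + x) (Set.add_mem_add hy hx)).symm
    exact hxy (add_right_cancel ((Equiv.injective _) h))
  · rintro r ⟨c, hc⟩
    by_contra hlt
    rw [not_le] at hlt
    obtain ⟨n, rfl⟩ := Cardinal.lt_aleph0.1
      (hlt.trans (by exact_mod_cast Cardinal.natCast_lt_aleph0 (n := 3)))
    have hn : n < 3 := by exact_mod_cast hlt
    have hcard : (Set.range c).encard ≤ 2 := by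
      have h1 : (Set.range c).encard ≤ (Set.univ : Set (Quotient.out (n : Cardinal.{u}))).encard :=
        Set.encard_le_encard (Set.subset_univ _)
      have h2 : (Set.univ : Set (Quotient.out (n : Cardinal.{u}))).encard = n := by
        rw [Set.encard_univ, ENat.card, Cardinal.mk_out]
        simp
      rw [h2] at h1
      refine h1.trans ?_
      exact_mod_cast (by omega : n ≤ 2)
    obtain ⟨X, _, hX, hm⟩ := copy φ hφ c hcard
    exact hc X hX hm

/-- `rd ℚ = 2` is false: every two-colouring of the rationals, and of every (not necessarily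
abelian) group `A` that contains a copy `φ ℚ` of the rationals, has a monochromatic `X + X` with
`X` infinite and inside the copy. Hence `rd A ≥ 3` for all these groups. -/
theorem result :
    3 ≤ rd ℚ ∧ rd ℚ ≠ 2 ∧
    ∀ (A : Type u) [AddGroup A] (φ : ℚ →+ A), Function.Injective φ →
      3 ≤ rd A ∧
      ∀ (κ : Type v) (c : A → κ), (Set.range c).encard ≤ 2 →
        ∃ X : Set A, X ⊆ Set.range φ ∧ X.Infinite ∧ MonoSumset c X := by
  have h3 : 3 ≤ rd ℚ := three_le_rd ℚ (AddMonoidHom.id ℚ) fun _ _ h => h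
  refine ⟨h3, ?_, fun A _ φ hφ => ⟨three_le_rd A φ hφ, fun κ c hc => copy φ hφ c hc⟩⟩
  intro h
  rw [h] at h3
  norm_num at h3

end Pool.Agent.Results.MP_d5cc4e_co.GroupsContainingQ
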